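import Pool.Agent.Results.MP_b69c94_gt.SquareNotLindelof

/-!
# A Rothberger space which is not omega-Rothberger, in ZFC

Let `T` be an Aronszajn tree and `A`, `B` disjoint stationary sets of countable limit ordinals. The
space `T_A` has the points of `T`; nodes whose level is not in `A` are isolated, and a node `p`
whose level is in `A` has the basic neighbourhoods `{u | s < u, not p ≤ u} ∪ {p}`, `s < p`
(Todorcevic's Lindelöf tree topology; the trees and the topologies are taken from the starting file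
`SquareNotLindelof` of the problem `MP_b69c94_gt`).

New is that `T_A` is a Rothberger space: by the pressing down lemma, for all but countably many
nodes `s` and all `m`, `n`, the nodes above `s` are covered by one member of the `m`-th and one
member of the `n`-th cover. The sum of `T_A` and `T_B` is Rothberger, but it is not
omega-Rothberger: the open sets `O` for which only countably many nodes `t` belong (twice) to `O`
form an omega-cover without a countable omega-subcover.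
-/

set_option autoImplicit false

open Set Topology

namespace Pool.Agent.Results.MP_f9bcb0_lc.RothbergerNotOmega

open Pool.Agent.Results.MP_b69c94_gt.SquareNotLindelof

universe u

/-- An open cover of the space `X`. -/
def IsOpenCover {X : Type u} [TopologicalSpace X] (𝒰 : Set (Set X)) : Prop :=
  (∀ U ∈ 𝒰, IsOpen U) ∧ ⋃₀ 𝒰 = univ

/-- An `ω`-cover of `X`: an open cover of which `X` is not a member, such that every finite subset
of `X` is contained in a member. -/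
def IsOmegaCover {X : Type u} [TopologicalSpace X] (𝒰 : Set (Set X)) : Prop :=
  IsOpenCover 𝒰 ∧ univ ∉ 𝒰 ∧ ∀ F : Set X, F.Finite → ∃ U ∈ 𝒰, F ⊆ U

/-- `X` is Rothberger: `S_1(O, O)`. -/
def Rothberger (X : Type u) [TopologicalSpace X] : Prop :=
  ∀ 𝒰 : ℕ → Set (Set X), (∀ n, IsOpenCover (𝒰 n)) →
    ∃ U : ℕ → Set X, (∀ n, U n ∈ 𝒰 n) ∧ IsOpenCover (range U)

/-- `X` is `ω`-Rothberger: `S_1(Ω, Ω)`. -/
def OmegaRothberger (X : Type u) [TopologicalSpace X] : Prop :=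
  ∀ 𝒰 : ℕ → Set (Set X), (∀ n, IsOmegaCover (𝒰 n)) →
    ∃ U : ℕ → Set X, (∀ n, U n ∈ 𝒰 n) ∧ IsOmegaCover (range U)

/-- The sum of two Rothberger spaces is Rothberger. -/
theorem rothberger_sum {X Y : Type u} [TopologicalSpace X] [TopologicalSpace Y]
    (hX : Rothberger X) (hY : Rothberger Y) : Rothberger (X ⊕ Y) := by
  intro 𝒰 h𝒰
  obtain ⟨U, hU, hUc⟩ := hX (fun n => {V | ∃ W ∈ 𝒰 (2 * n), V = Sum.inl ⁻¹' W}) (by
    intro n
    refine ⟨?_, eq_univ_of_forall fun x => ?_⟩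
    · rintro _ ⟨W, hW, rfl⟩
      exact ((h𝒰 _).1 W hW).preimage continuous_inl
    · have : Sum.inl x ∈ ⋃₀ 𝒰 (2 * n) := by rw [(h𝒰 _).2]; exact mem_univ _
      obtain ⟨W, hW, hx⟩ := this
      exact ⟨_, ⟨W, hW, rfl⟩, hx⟩)
  obtain ⟨V, hV, hVc⟩ := hY (fun n => {V | ∃ W ∈ 𝒰 (2 * n + 1), V = Sum.inr ⁻¹' W}) (by
    intro n
    refine ⟨?_, eq_univ_of_forall fun x => ?_⟩
    · rintro _ ⟨W, hW, rfl⟩
      exact ((h𝒰 _).1 W hW).preimage continuous_inr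
    · have : Sum.inr x ∈ ⋃₀ 𝒰 (2 * n + 1) := by rw [(h𝒰 _).2]; exact mem_univ _
      obtain ⟨W, hW, hx⟩ := this
      exact ⟨_, ⟨W, hW, rfl⟩, hx⟩)
  choose P hP hPU using hU
  choose Q hQ hQV using hV
  have hex : ∀ k, ∃ W ∈ 𝒰 k, (∀ n, k = 2 * n → W = P n) ∧ (∀ n, k = 2 * n + 1 → W = Q n) := by
    intro k
    rcases Nat.even_or_odd' k with ⟨n, rfl | rfl⟩
    · refine ⟨P n, hP n, fun m hm => ?_, fun m hm => by omega⟩
      rw [show m = n by omega]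
    · refine ⟨Q n, hQ n, fun m hm => by omega, fun m hm => ?_⟩
      rw [show m = n by omega]
  choose W hW hW1 hW2 using hex
  refine ⟨W, hW, ?_, eq_univ_of_forall ?_⟩
  · rintro _ ⟨n, rfl⟩
    exact (h𝒰 n).1 _ (hW n)
  · rintro (x | y)
    · have : x ∈ ⋃₀ range U := by rw [hUc.2]; exact mem_univ _
      obtain ⟨_, ⟨n, rfl⟩, hx⟩ := this
      refine ⟨W (2 * n), ⟨_, rfl⟩, ?_⟩
      rw [hPU n] at hx
      rw [hW1 _ n rfl]
      exact hx
    · have : y ∈ ⋃₀ range V := by rw [hVc.2]; exact mem_univ _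
      obtain ⟨_, ⟨n, rfl⟩, hy⟩ := this
      refine ⟨W (2 * n + 1), ⟨_, rfl⟩, ?_⟩
      rw [hQV n] at hy
      rw [hW2 _ n rfl]
      exact hy

section tree

variable {Ω T : Type} [LinearOrder Ω] [PartialOrder T] (𝒯 : ATree Ω T)

/-- One level of the tree such that the cones above its nodes are covered by one member of any
cover and one member of any other cover of the sequence. -/
theorem level [WellFoundedLT Ω] [Uncountable Ω] (hc : ∀ a : Ω, (Iio a).Countable) (A : Set Ω)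
    (hA : ¬ Pool.Agent.Results.MP_b69c94_gt.SquareNotLindelof.Small A) (hAL : ∀ a ∈ A, Lim a) (𝒰 : ℕ → Set (Set T))
    (h𝒰 : ∀ n, (∀ U ∈ 𝒰 n, IsOpen[topo 𝒯 {t | 𝒯.lv t ∈ A}] U) ∧ ⋃₀ 𝒰 n = univ) :
    ∃ b, ∀ t, 𝒯.lv t = b → ∀ m n, ∃ U ∈ 𝒰 m, ∃ V ∈ 𝒰 n, {u | t < u} ⊆ U ∪ V := by
  have key : ∀ m n : ℕ, ∃ a, ∀ t, 𝒯.lv t = a →
      ∃ U ∈ 𝒰 m, ∃ V ∈ 𝒰 n, {u | t < u} ⊆ U ∪ V := by
    intro m n
    refine level_lemma 𝒯 A hA
      (fun s p => (∃ U ∈ 𝒰 m, Nb s p ⊆ U) ∧ ∃ U ∈ 𝒰 n, Nb s p ⊆ U)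
      (fun s => ∃ U ∈ 𝒰 m, ∃ V ∈ 𝒰 n, {u | s < u} ⊆ U ∪ V) ?_ ?_ ?_
    · rintro s t hst ⟨U, hU, V, hV, h⟩
      exact ⟨U, hU, V, hV, fun u hu => h (hst.trans_lt hu)⟩
    · intro p hp
      obtain ⟨r, hr⟩ := exists_lt (𝒯 := 𝒯) (hAL _ hp)
      have hex : ∀ k, ∃ s, s < p ∧ ∃ U ∈ 𝒰 k, Nb s p ⊆ U := by
        intro k
        have : p ∈ ⋃₀ 𝒰 k := by rw [(h𝒰 k).2]; exact mem_univ _
        obtain ⟨U, hU, hpU⟩ := this
        obtain ⟨s, hs, hsU⟩ := (h𝒰 k).1 U hU p hpU hp r hr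
        exact ⟨s, hs, U, hU, hsU⟩
      obtain ⟨s, hs, U, hU, hsU⟩ := hex m
      obtain ⟨s', hs', U', hU', hsU'⟩ := hex n
      rcases 𝒯.tree hs.le hs'.le with h | h
      · exact ⟨s', hs', ⟨U, hU, (Nb_mono h).trans hsU⟩, U', hU', hsU'⟩
      · exact ⟨s, hs, ⟨U, hU, hsU⟩, U', hU', (Nb_mono h).trans hsU'⟩
    · rintro s p p' - - ⟨⟨U, hU, hsU⟩, -⟩ ⟨-, V, hV, hsV⟩ h1 h2
      refine ⟨U, hU, V, hV, fun u hu => ?_⟩
      rcases cone_subset 𝒯 hu h1 h2 with h3 | h3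
      · exact Or.inl (hsU h3)
      · exact Or.inr (hsV h3)
  choose a ha using key
  obtain ⟨b, hb⟩ := exists_gt hc (Set.countable_range fun p : ℕ × ℕ => a p.1 p.2)
  refine ⟨b, fun t ht m n => ?_⟩
  obtain ⟨s, hst, hs⟩ := 𝒯.restr t (a m n) (by
    rw [ht]
    exact (hb _ ⟨(m, n), rfl⟩).le)
  obtain ⟨U, hU, V, hV, h⟩ := ha m n s hs
  exact ⟨U, hU, V, hV, fun u hu => h (hst.trans_lt hu)⟩

/-- The tree space is Rothberger. -/
theorem rothberger_tree [WellFoundedLT Ω] [Uncountable Ω] [Nonempty T]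
    (hc : ∀ a : Ω, (Iio a).Countable) (A : Set Ω) (hA : ¬ Pool.Agent.Results.MP_b69c94_gt.SquareNotLindelof.Small A)
    (hAL : ∀ a ∈ A, Lim a) : Rothberger (Sp 𝒯 A) := by
  classical
  intro 𝒰 h𝒰
  obtain ⟨b, hb⟩ := level 𝒯 hc A hA hAL 𝒰 fun n => ⟨(h𝒰 n).1, (h𝒰 n).2⟩
  -- the countable set of the nodes of level at most `b`
  have hC : {t : T | 𝒯.lv t ≤ b}.Countable := by
    refine ((below_countable 𝒯 hc b).union (𝒯.cnt b)).mono fun t ht => ?_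
    have ht : 𝒯.lv t ≤ b := ht
    exact ht.lt_or_eq
  have hne : {t : T | 𝒯.lv t ≤ b}.Nonempty := by
    obtain ⟨t⟩ := (inferInstance : Nonempty T)
    rcases le_total (𝒯.lv t) b with h | h
    · exact ⟨t, h⟩
    · obtain ⟨s, -, hs⟩ := 𝒯.restr t b h
      exact ⟨s, hs.le⟩
  obtain ⟨g, hg⟩ := hC.exists_eq_range hne
  have h1 : ∀ k, ∃ U ∈ 𝒰 (3 * k), g k ∈ U := by
    intro k
    have : (g k : T) ∈ ⋃₀ 𝒰 (3 * k) := by rw [(h𝒰 _).2]; exact mem_univ (α := T) _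
    obtain ⟨U, hU, h⟩ := this
    exact ⟨U, hU, h⟩
  have h2 : ∀ k, ∃ U ∈ 𝒰 (3 * k + 1), ∃ V ∈ 𝒰 (3 * k + 2), 𝒯.lv (g k) = b →
      {u | g k < u} ⊆ U ∪ V := by
    intro k
    by_cases h : 𝒯.lv (g k) = b
    · obtain ⟨U, hU, V, hV, h'⟩ := hb (g k) h (3 * k + 1) (3 * k + 2)
      exact ⟨U, hU, V, hV, fun _ => h'⟩
    · have hn : ∀ n, ∃ U, U ∈ 𝒰 n := by
        intro n
        have : (g k : T) ∈ ⋃₀ 𝒰 n := by rw [(h𝒰 _).2]; exact mem_univ (α := T) _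
        obtain ⟨U, hU, -⟩ := this
        exact ⟨U, hU⟩
      obtain ⟨U, hU⟩ := hn (3 * k + 1)
      obtain ⟨V, hV⟩ := hn (3 * k + 2)
      exact ⟨U, hU, V, hV, fun h' => absurd h' h⟩
  choose P hP hgP using h1
  choose Q hQ R hR hQR using h2
  have hex : ∀ n, ∃ W ∈ 𝒰 n, (∀ k, n = 3 * k → W = P k) ∧ (∀ k, n = 3 * k + 1 → W = Q k) ∧
      (∀ k, n = 3 * k + 2 → W = R k) := by
    intro n
    obtain ⟨k, hk⟩ : ∃ k, n = 3 * k ∨ n = 3 * k + 1 ∨ n = 3 * k + 2 := ⟨n / 3, by omega⟩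
    rcases hk with rfl | rfl | rfl
    · refine ⟨P k, hP k, fun m hm => ?_, fun m hm => by omega, fun m hm => by omega⟩
      rw [show m = k by omega]
    · refine ⟨Q k, hQ k, fun m hm => by omega, fun m hm => ?_, fun m hm => by omega⟩
      rw [show m = k by omega]
    · refine ⟨R k, hR k, fun m hm => by omega, fun m hm => by omega, fun m hm => ?_⟩
      rw [show m = k by omega]
  choose W hW hW1 hW2 hW3 using hex
  refine ⟨W, hW, ?_, eq_univ_of_forall fun u => ?_⟩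
  · rintro _ ⟨n, rfl⟩
    exact (h𝒰 n).1 _ (hW n)
  · have hrg : ∀ t : T, 𝒯.lv t ≤ b → ∃ k, g k = t := by
      intro t ht
      have : t ∈ {t : T | 𝒯.lv t ≤ b} := ht
      rw [hg] at this
      exact this
    rcases le_or_gt (𝒯.lv u) b with h | h
    · obtain ⟨k, hk⟩ := hrg u h
      refine ⟨W (3 * k), ⟨_, rfl⟩, ?_⟩
      rw [hW1 _ k rfl, ← hk]
      exact hgP k
    · obtain ⟨t, htu, ht⟩ := 𝒯.restr u b h.le
      obtain ⟨k, hk⟩ := hrg t ht.le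
      have htu' : t < u := lt_of_le_of_ne htu (by
        rintro rfl
        rw [ht] at h
        exact lt_irrefl _ h)
      rcases hQR k (by rw [hk, ht]) (show g k < u from by rw [hk]; exact htu') with h3 | h3
      · refine ⟨W (3 * k + 1), ⟨_, rfl⟩, ?_⟩
        rw [hW2 _ k rfl]
        exact h3
      · refine ⟨W (3 * k + 2), ⟨_, rfl⟩, ?_⟩
        rw [hW3 _ k rfl]
        exact h3

end tree

section final

variable {Ω T : Type} [LinearOrder Ω] [PartialOrder T]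

/-- the copy of the node `t` in the first summand -/
def il (𝒯 : ATree Ω T) (A B : Set Ω) (t : T) : Sp 𝒯 A ⊕ Sp 𝒯 B := Sum.inl t

/-- the copy of the node `t` in the second summand -/
def ir (𝒯 : ATree Ω T) (A B : Set Ω) (t : T) : Sp 𝒯 A ⊕ Sp 𝒯 B := Sum.inr t

/-- Finite sets in the sum of the two tree spaces have neighbourhoods with small double trace. -/
theorem exists_nbhd (𝒯 : ATree Ω T) {A B : Set Ω} (hAB : Disjoint A B) (hAL : ∀ a ∈ A, Lim a)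
    (hBL : ∀ b ∈ B, Lim b) (F : Set (Sp 𝒯 A ⊕ Sp 𝒯 B)) (hF : F.Finite) :
    ∃ O : Set (Sp 𝒯 A ⊕ Sp 𝒯 B), IsOpen O ∧ F ⊆ O ∧
      {t : T | il 𝒯 A B t ∈ O ∧ ir 𝒯 A B t ∈ O}.Countable := by
  classical
  have hTC : T3Space (Sp 𝒯 (A ∪ B)) :=
    t3 (𝒯 := 𝒯) (P := {t | 𝒯.lv t ∈ A ∪ B}) fun p hp => hp.elim (hAL _) (hBL _)
  -- separation of two nodes
  have hsep : ∀ s t : T, ∃ U V : Set T, s ∈ U ∧ t ∈ V ∧ IsOpen (X := Sp 𝒯 A) U ∧
      IsOpen (X := Sp 𝒯 B) V ∧ U ∩ V ⊆ {s} ∩ {t} := by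
    intro s t
    by_cases hst : s = t
    · subst hst
      by_cases h : 𝒯.lv s ∈ A
      · exact ⟨univ, {s}, mem_univ _, rfl, isOpen_univ,
          isOpen_sing hBL s (fun h' => (Set.disjoint_left.1 hAB h) h'), by simp⟩
      · exact ⟨{s}, univ, rfl, mem_univ _, isOpen_sing hAL s h, isOpen_univ, by simp⟩
    · obtain ⟨U, V, hU, hV, hs, ht, hUV⟩ := t2_separation (X := Sp 𝒯 (A ∪ B)) hst
      refine ⟨U, V, hs, ht, isOpen_mono (𝒯 := 𝒯) subset_union_left U hU,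
        isOpen_mono (𝒯 := 𝒯) subset_union_right V hV, ?_⟩
      rintro x ⟨hx, hx'⟩
      exact absurd hx' (Set.disjoint_left.1 hUV hx)
  choose U V hsU htV hU hV hUV using hsep
  have hFA : (Sum.inl ⁻¹' F : Set T).Finite := hF.preimage Sum.inl_injective.injOn
  have hFB : (Sum.inr ⁻¹' F : Set T).Finite := hF.preimage Sum.inr_injective.injOn
  let OA : Set T := ⋃ s ∈ (Sum.inl ⁻¹' F : Set T), ⋂ t ∈ (Sum.inr ⁻¹' F : Set T), U s t
  let OB : Set T := ⋃ t ∈ (Sum.inr ⁻¹' F : Set T), ⋂ s ∈ (Sum.inl ⁻¹' F : Set T), V s t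
  have hOA : IsOpen (X := Sp 𝒯 A) OA :=
    isOpen_biUnion (X := Sp 𝒯 A) fun s _ => hFB.isOpen_biInter fun t _ => hU s t
  have hOB : IsOpen (X := Sp 𝒯 B) OB :=
    isOpen_biUnion (X := Sp 𝒯 B) fun t _ => hFA.isOpen_biInter fun s _ => hV s t
  refine ⟨Sum.inl '' OA ∪ Sum.inr '' OB, (isOpenMap_inl _ hOA).union (isOpenMap_inr _ hOB),
    ?_, ?_⟩
  · rintro (s | t) h
    · exact Or.inl ⟨s, mem_iUnion₂.2 ⟨s, h, mem_iInter₂.2 fun t _ => hsU s t⟩, rfl⟩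
    · exact Or.inr ⟨t, mem_iUnion₂.2 ⟨t, h, mem_iInter₂.2 fun s _ => htV s t⟩, rfl⟩
  · refine hFA.countable.mono ?_
    rintro x ⟨h1, h2⟩
    have h1 : x ∈ OA := by
      rcases h1 with ⟨y, hy, h⟩ | ⟨y, hy, h⟩
      · rwa [← Sum.inl_injective h]
      · cases h
    have h2 : x ∈ OB := by
      rcases h2 with ⟨y, hy, h⟩ | ⟨y, hy, h⟩
      · cases h
      · rwa [← Sum.inr_injective h]
    obtain ⟨s, hs, h1⟩ := mem_iUnion₂.1 h1
    obtain ⟨t, ht, h2⟩ := mem_iUnion₂.1 h2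
    have := hUV s t ⟨mem_iInter₂.1 h1 t ht, mem_iInter₂.1 h2 s hs⟩
    rw [show x = s from this.1]
    exact hs

/-- The sum of the two tree spaces is not `ω`-Rothberger. -/
theorem not_omegaRothberger (𝒯 : ATree Ω T) [Uncountable T] {A B : Set Ω} (hAB : Disjoint A B)
    (hAL : ∀ a ∈ A, Lim a) (hBL : ∀ b ∈ B, Lim b) : ¬ OmegaRothberger (Sp 𝒯 A ⊕ Sp 𝒯 B) := by
  intro h
  let 𝒰 : Set (Set (Sp 𝒯 A ⊕ Sp 𝒯 B)) :=
    {O | IsOpen O ∧ {t : T | il 𝒯 A B t ∈ O ∧ ir 𝒯 A B t ∈ O}.Countable}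
  have h𝒰 : IsOmegaCover 𝒰 := by
    refine ⟨⟨fun O hO => hO.1, eq_univ_of_forall fun x => ?_⟩, ?_, fun F hF => ?_⟩
    · obtain ⟨O, hO, hF, hc⟩ := exists_nbhd 𝒯 hAB hAL hBL {x} (finite_singleton x)
      exact ⟨O, ⟨hO, hc⟩, hF rfl⟩
    · intro h
      apply not_countable_univ (α := T)
      exact h.2.mono fun t _ => (⟨mem_univ _, mem_univ _⟩ :
        il 𝒯 A B t ∈ (univ : Set (Sp 𝒯 A ⊕ Sp 𝒯 B)) ∧ ir 𝒯 A B t ∈ (univ : Set _))
    · obtain ⟨O, hO, hF, hc⟩ := exists_nbhd 𝒯 hAB hAL hBL F hF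
      exact ⟨O, ⟨hO, hc⟩, hF⟩
  obtain ⟨U, hU, -, -, hfin⟩ := h (fun _ => 𝒰) fun _ => h𝒰
  apply not_countable_univ (α := T)
  refine (countable_iUnion fun n => (hU n).2).mono fun t _ => ?_
  obtain ⟨_, ⟨n, rfl⟩, hn⟩ := hfin {il 𝒯 A B t, ir 𝒯 A B t} (toFinite _)
  exact mem_iUnion.2 ⟨n, hn (Or.inl rfl), hn (Or.inr rfl)⟩

theorem main (𝒯 : ATree Ω T) [WellFoundedLT Ω] [Uncountable Ω] (hc : ∀ a : Ω, (Iio a).Countable)
    (hT : Uncountable T) :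
    ∃ (X : Type) (_ : TopologicalSpace X), T35Space X ∧ Rothberger X ∧ ¬ OmegaRothberger X := by
  obtain ⟨A, B, hA, hB, hAB, hAL, hBL⟩ := exists_disjoint hc
  have hLA : LindelofSpace (Sp 𝒯 A) := lindelof 𝒯 hc A hA hAL
  have hLB : LindelofSpace (Sp 𝒯 B) := lindelof 𝒯 hc B hB hBL
  have hTA : T3Space (Sp 𝒯 A) := t3 (𝒯 := 𝒯) (P := {t | 𝒯.lv t ∈ A}) fun p hp => hAL _ hp
  have hTB : T3Space (Sp 𝒯 B) := t3 (𝒯 := 𝒯) (P := {t | 𝒯.lv t ∈ B}) fun p hp => hBL _ hp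
  refine ⟨Sp 𝒯 A ⊕ Sp 𝒯 B, inferInstance, ?_, ?_, not_omegaRothberger 𝒯 hAB hAL hBL⟩
  · have : RegularSpace (Sp 𝒯 A ⊕ Sp 𝒯 B) := regular_sum
    infer_instance
  · exact rothberger_sum (rothberger_tree 𝒯 hc A hA hAL) (rothberger_tree 𝒯 hc B hB hBL)

end final

/-- **ZFC proves that there is a Rothberger space which is not `ω`-Rothberger.** The space is
moreover Tychonoff. -/
theorem result : ∃ (X : Type) (_ : TopologicalSpace X),
    T35Space X ∧ Rothberger X ∧ ¬ OmegaRothberger X := by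
  obtain ⟨Ω, _, _, _, hc⟩ := exists_omega
  choose C hC1 hC2 hC3 using exists_ladder hc
  have 𝒯 : ATree Ω (Node C) := Node.tree hc hC1 hC2 hC3
  have hT : Uncountable (Node C) := Node.uncountable (C := C) hc hC1 hC2 hC3
  exact main 𝒯 hc hT

end Pool.Agent.Results.MP_f9bcb0_lc.RothbergerNotOmega
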